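import Mathlib

namespace Pool.Agent.Results.MP_d99131_an.GoodNoRatioLimit

open Set Filter Topology

/-- Upper density `limsup |B ∩ [1,N]| / N`. -/
noncomputable def upperDens (B : Set ℕ) : ℝ :=
  limsup (fun N : ℕ => ((B ∩ Icc 1 N).ncard : ℝ) / N) atTop

section Defs
variable {X : Type} [NormedAddCommGroup X] [NormedSpace ℂ X]

/-- The sequence `(λₙ Tⁿ)` has property `𝒜`. -/
def PropA (l : ℕ → ℂ) (T : X →L[ℂ] X) : Prop :=
  ∀ U : Set X, IsOpen U → U.Nonempty → ∃ x : X, 0 < upperDens {n | l n • (T ^ n) x ∈ U}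

/-- `T` is topologically multiply recurrent. -/
def MultRec (T : X →L[ℂ] X) : Prop :=
  ∀ U : Set X, IsOpen U → U.Nonempty → ∀ m : ℕ, 1 ≤ m → ∃ k : ℕ, 1 ≤ k ∧
    ∃ x : X, ∀ j ≤ m, (T ^ (j * k)) x ∈ U

end Defs

/-- A good sequence: on every infinite-dimensional separable complex Banach space, property `𝒜`
for `(λₙ Tⁿ)` implies that `T` is topologically multiply recurrent. -/
def Good (l : ℕ → ℂ) : Prop :=
  ∀ (X : Type) [NormedAddCommGroup X] [NormedSpace ℂ X] [CompleteSpace X]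
    [TopologicalSpace.SeparableSpace X], ¬ FiniteDimensional ℂ X →
    ∀ T : X →L[ℂ] X, PropA l T → MultRec T

/-- For every `τ ≥ 1` the ratio `|λₙ| / |λ_{n+τ}|` has no limit in `[0, ∞]`. -/
def NoRatioLimit (l : ℕ → ℂ) : Prop :=
  ∀ τ : ℕ, 1 ≤ τ → ¬ ∃ L : ENNReal,
    Tendsto (fun n => ENNReal.ofReal (‖l n‖ / ‖l (n + τ)‖)) atTop (𝓝 L)

/-- `(λₙ Tⁿ)` and `(Tⁿ)` have property `𝒜` for exactly the same operators. -/
def SameAsOne (l : ℕ → ℂ) : Prop :=
  ∀ (X : Type) [NormedAddCommGroup X] [NormedSpace ℂ X] (T : X →L[ℂ] X),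
    PropA l T ↔ PropA (fun _ => 1) T

theorem frac_le (B : Set ℕ) (N : ℕ) : ((B ∩ Icc 1 N).ncard : ℝ) / N ≤ 1 := by
  rcases Nat.eq_zero_or_pos N with rfl | hN
  · simp
  · rw [div_le_one (by exact_mod_cast hN)]
    have : (B ∩ Icc 1 N).ncard ≤ (Icc 1 N).ncard :=
      ncard_le_ncard inter_subset_right (finite_Icc _ _)
    have h2 : (Icc 1 N).ncard = N := by
      rw [← Finset.coe_Icc, ncard_coe_finset]; simp
    exact_mod_cast h2 ▸ this

theorem pos_iff (B : Set ℕ) : 0 < upperDens B ↔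
    ∃ c : ℝ, 0 < c ∧ ∃ᶠ N : ℕ in atTop, c ≤ ((B ∩ Icc 1 N).ncard : ℝ) / N := by
  constructor
  · intro h
    refine ⟨upperDens B / 2, by linarith, ?_⟩
    have := frequently_lt_of_lt_limsup (u := fun N : ℕ => ((B ∩ Icc 1 N).ncard : ℝ) / N)
      (f := atTop) (b := upperDens B / 2)
      (isCoboundedUnder_le_of_le atTop (x := 0) (fun N => by positivity))
      (by change upperDens B / 2 < upperDens B; linarith)
    exact this.mono fun N hN => hN.le
  · rintro ⟨c, hc, h⟩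
    exact hc.trans_le (le_limsup_of_frequently_le h
      (isBoundedUnder_of_eventually_le (a := 1) (Eventually.of_forall (frac_le B))))

/-- The set of squares. -/
def D : Set ℕ := {n | ∃ t, t * t = n}

theorem D_card (N : ℕ) : (D ∩ Icc 1 N).ncard ≤ Nat.sqrt N := by
  have : D ∩ Icc 1 N ⊆ (fun t => t * t) '' Icc 1 (Nat.sqrt N) := by
    rintro n ⟨⟨t, rfl⟩, h1, h2⟩
    refine ⟨t, ⟨?_, Nat.le_sqrt.2 h2⟩, rfl⟩
    rcases Nat.eq_zero_or_pos t with rfl | h
    · simp at h1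
    · exact h
  refine (ncard_le_ncard this ((finite_Icc _ _).image _)).trans ?_
  refine (ncard_image_le (finite_Icc _ _)).trans ?_
  rw [← Finset.coe_Icc, ncard_coe_finset]; simp

theorem D_small {c : ℝ} (hc : 0 < c) :
    ∀ᶠ N : ℕ in atTop, ((D ∩ Icc 1 N).ncard : ℝ) / N ≤ c := by
  obtain ⟨k, hk⟩ := exists_nat_one_div_lt hc
  filter_upwards [eventually_ge_atTop ((k + 1) * (k + 1))] with N hN
  have h1 : k + 1 ≤ Nat.sqrt N := Nat.le_sqrt.2 hN
  have h2 : Nat.sqrt N * Nat.sqrt N ≤ N := Nat.sqrt_le N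
  have h3 : (D ∩ Icc 1 N).ncard * (k + 1) ≤ N :=
    (Nat.mul_le_mul (D_card N) h1).trans h2
  have hNpos : (0 : ℝ) < N := by
    have : 0 < N := lt_of_lt_of_le (by positivity) hN
    exact_mod_cast this
  refine le_trans ?_ hk.le
  rw [div_le_div_iff₀ hNpos (by positivity)]
  have : (((D ∩ Icc 1 N).ncard * (k + 1) : ℕ) : ℝ) ≤ N := by exact_mod_cast h3
  push_cast at this
  linarith

theorem pos_mono {B C : Set ℕ} (h : B ⊆ C ∪ D) (hB : 0 < upperDens B) : 0 < upperDens C := by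
  obtain ⟨c, hc, hf⟩ := (pos_iff B).1 hB
  refine (pos_iff C).2 ⟨c / 2, by linarith, ?_⟩
  refine (hf.and_eventually (D_small (c := c / 2) (by linarith))).mono ?_
  rintro N ⟨h1, h2⟩
  have h3 : (B ∩ Icc 1 N).ncard ≤ (C ∩ Icc 1 N).ncard + (D ∩ Icc 1 N).ncard := by
    refine le_trans (ncard_le_ncard (t := (C ∩ Icc 1 N) ∪ (D ∩ Icc 1 N)) ?_ ?_) (ncard_union_le _ _)
    · rintro n ⟨hn, hn'⟩
      rcases h hn with h | h
      · exact Or.inl ⟨h, hn'⟩
      · exact Or.inr ⟨h, hn'⟩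
    · exact ((finite_Icc _ _).inter_of_right _).union ((finite_Icc _ _).inter_of_right _)
  have h4 : ((B ∩ Icc 1 N).ncard : ℝ) / N ≤
      ((C ∩ Icc 1 N).ncard : ℝ) / N + ((D ∩ Icc 1 N).ncard : ℝ) / N := by
    rw [← add_div]
    gcongr
    exact_mod_cast h3
  linarith

theorem not_pos_of_finite {B : Set ℕ} (hB : B.Finite) : ¬ 0 < upperDens B := by
  rw [pos_iff]
  rintro ⟨c, hc, hf⟩
  have ht : Tendsto (fun N : ℕ => (B.ncard : ℝ) / N) atTop (𝓝 0) :=
    tendsto_const_div_atTop_nhds_zero_nat _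
  obtain ⟨N, h1, h2⟩ := (hf.and_eventually (ht.eventually (gt_mem_nhds hc))).exists
  have h3 : ((B ∩ Icc 1 N).ncard : ℝ) / N ≤ (B.ncard : ℝ) / N := by
    gcongr
    exact inter_subset_left
  linarith

theorem no_limit {f : ℕ → ℝ} {a b : ℝ} (ha : 0 ≤ a) (hab : a < b)
    (h1 : ∃ᶠ n in atTop, f n ≤ a) (h2 : ∃ᶠ n in atTop, b ≤ f n) :
    ¬ ∃ L : ENNReal, Tendsto (fun n => ENNReal.ofReal (f n)) atTop (𝓝 L) := by
  rintro ⟨L, hL⟩
  have e1 : L ≤ ENNReal.ofReal a :=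
    isClosed_Iic.mem_of_frequently_of_tendsto
      (h1.mono fun n hn => ENNReal.ofReal_le_ofReal hn) hL
  have e2 : ENNReal.ofReal b ≤ L :=
    isClosed_Ici.mem_of_frequently_of_tendsto
      (h2.mono fun n hn => ENNReal.ofReal_le_ofReal hn) hL
  have := e2.trans e1
  rw [ENNReal.ofReal_le_ofReal_iff ha] at this
  linarith

theorem freq_in (τ : ℕ) (hτ : 1 ≤ τ) : ∃ᶠ n in atTop, n ∈ D ∧ n + τ ∉ D ∧ τ ≤ n := by
  rw [frequently_atTop]
  intro a
  refine ⟨(a + τ) * (a + τ), by nlinarith, ⟨_, rfl⟩, ?_, by nlinarith⟩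
  exact Nat.not_exists_sq (m := a + τ) (by omega) (by nlinarith)

theorem freq_out : ∃ᶠ n in atTop, n ∉ D := by
  rw [frequently_atTop]
  intro a
  refine ⟨(a + 1) * (a + 1) + 1, by nlinarith, ?_⟩
  exact Nat.not_exists_sq (m := a + 1) (by omega) (by nlinarith)

open Classical in
/-- Exponent of the first example. -/
noncomputable def ex (n : ℕ) : ℝ := if n ∈ D then 4 * (n : ℝ) ^ 2 else (n : ℝ) ^ 2

/-- First example. -/
noncomputable def l1 (n : ℕ) : ℂ := (Real.exp (-ex n) : ℝ)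

open Classical in
/-- Second example. -/
noncomputable def l2 (n : ℕ) : ℂ := if n ∈ D then 1 / 2 else 1

theorem ex_ge (n : ℕ) : (n : ℝ) ^ 2 ≤ ex n := by
  unfold ex
  split_ifs
  · nlinarith [sq_nonneg (n : ℝ)]
  · exact le_rfl

theorem l1_norm (n : ℕ) : ‖l1 n‖ = Real.exp (-ex n) := by
  rw [l1, Complex.norm_real, Real.norm_of_nonneg (Real.exp_pos _).le]

theorem l1_good : Good l1 := by
  intro X _ _ _ _ hX T hA
  exfalso
  haveI : Nontrivial X := by
    by_contra h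
    rw [not_nontrivial_iff_subsingleton] at h
    exact hX inferInstance
  obtain ⟨y, hy⟩ := exists_ne (0 : X)
  have hy' : 0 < ‖y‖ := norm_pos_iff.2 hy
  obtain ⟨x, hx⟩ := hA {z | ‖y‖ / 2 < ‖z‖} (isOpen_lt continuous_const continuous_norm)
    ⟨y, by simp only [mem_ofPred_eq]; linarith⟩
  refine not_pos_of_finite ?_ hx
  have ht : Tendsto (fun n : ℕ => (1 / 2 : ℝ) ^ n * ‖x‖) atTop (𝓝 0) := by
    simpa using (tendsto_pow_atTop_nhds_zero_of_lt_one (r := (1 / 2 : ℝ)) (by norm_num)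
      (by norm_num)).mul_const ‖x‖
  have hev : ∀ᶠ n : ℕ in atTop, ‖l1 n • (T ^ n) x‖ < ‖y‖ / 2 := by
    obtain ⟨k, hk⟩ := exists_nat_ge (2 * ‖T‖)
    filter_upwards [ht.eventually (gt_mem_nhds (half_pos hy')), eventually_ge_atTop k,
      eventually_ge_atTop 1] with n h1 h2 h3
    refine lt_of_le_of_lt ?_ h1
    rw [norm_smul, l1_norm]
    have a1 : ‖(T ^ n) x‖ ≤ ‖T‖ ^ n * ‖x‖ :=
      ((T ^ n).le_opNorm x).trans (by gcongr; exact norm_pow_le' T (by omega))
    have a2 : Real.exp (-ex n) ≤ Real.exp (-(n : ℝ)) ^ n := by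
      rw [← Real.exp_nat_mul]
      apply Real.exp_le_exp.2
      have := ex_ge n
      nlinarith
    have a3 : Real.exp (-(n : ℝ)) * ‖T‖ ≤ 1 / 2 := by
      rw [Real.exp_neg, inv_mul_le_iff₀ (Real.exp_pos _)]
      have := Real.add_one_le_exp (n : ℝ)
      have : (k : ℝ) ≤ n := by exact_mod_cast h2
      linarith
    calc Real.exp (-ex n) * ‖(T ^ n) x‖ ≤ Real.exp (-(n : ℝ)) ^ n * (‖T‖ ^ n * ‖x‖) := by gcongr
      _ = (Real.exp (-(n : ℝ)) * ‖T‖) ^ n * ‖x‖ := by rw [mul_pow]; ring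
      _ ≤ (1 / 2 : ℝ) ^ n * ‖x‖ := by gcongr
  obtain ⟨N, hN⟩ := eventually_atTop.1 hev
  refine (finite_Iio N).subset fun n hn => ?_
  by_contra hc
  have := hN n (by simpa using hc)
  have hn' : ‖y‖ / 2 < ‖l1 n • (T ^ n) x‖ := hn
  linarith

theorem l1_no : NoRatioLimit l1 := by
  intro τ hτ
  have hτ' : (1 : ℝ) ≤ τ := by exact_mod_cast hτ
  refine no_limit (a := 1) (b := 2) (by norm_num) (by norm_num) ?_ ?_
  · refine (freq_in τ hτ).mono ?_
    rintro n ⟨h1, h2, h3⟩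
    rw [l1_norm, l1_norm, ← Real.exp_sub, Real.exp_le_one_iff]
    have h3' : (τ : ℝ) ≤ n := by exact_mod_cast h3
    simp only [ex, h1, h2, if_true, if_false]
    push_cast
    nlinarith
  · refine freq_out.mono ?_
    intro n h1
    rw [l1_norm, l1_norm, ← Real.exp_sub]
    have h2 := ex_ge (n + τ)
    have h3 : ex n = (n : ℝ) ^ 2 := by simp [ex, h1]
    have h4 := Real.add_one_le_exp (-ex n - -ex (n + τ))
    have h5 : (0 : ℝ) ≤ n := Nat.cast_nonneg n
    push_cast at h2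
    nlinarith

theorem l2_same : SameAsOne l2 := by
  intro X _ _ T
  constructor
  · intro h U hU hne
    obtain ⟨x, hx⟩ := h U hU hne
    refine ⟨x, pos_mono (fun n hn => ?_) hx⟩
    by_cases hD : n ∈ D
    · exact Or.inr hD
    · left
      simpa [l2, hD] using hn
  · intro h U hU hne
    obtain ⟨x, hx⟩ := h U hU hne
    refine ⟨x, pos_mono (fun n hn => ?_) hx⟩
    by_cases hD : n ∈ D
    · exact Or.inr hD
    · left
      simpa [l2, hD] using hn

theorem l2_no : NoRatioLimit l2 := by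
  intro τ hτ
  refine no_limit (a := 1 / 2) (b := 1) (by norm_num) (by norm_num) ?_ ?_
  · refine (freq_in τ hτ).mono ?_
    rintro n ⟨h1, h2, -⟩
    simp [l2, h1, h2]
  · refine freq_out.mono ?_
    intro n h1
    by_cases h2 : n + τ ∈ D <;> simp [l2, h1, h2]

/-- There is a good sequence of nonzero complex numbers none of whose ratio sequences has a limit
in `[0, ∞]`; and there is also such a sequence which is good if and only if the constant
sequence `1` is (it has property `𝒜` for the same operators). -/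
theorem result :
    (∃ l : ℕ → ℂ, (∀ n, l n ≠ 0) ∧ Good l ∧ NoRatioLimit l) ∧
    (∃ l : ℕ → ℂ, (∀ n, l n ≠ 0) ∧ SameAsOne l ∧ (Good l ↔ Good fun _ => 1) ∧
      NoRatioLimit l) := by
  refine ⟨⟨l1, fun n => ?_, l1_good, l1_no⟩, ⟨l2, fun n => ?_, l2_same, ?_, l2_no⟩⟩
  · rw [← norm_pos_iff, l1_norm]; exact Real.exp_pos _
  · unfold l2; split_ifs <;> norm_num
  · constructor
    · intro h X _ _ _ _ hX T hT
      exact h X hX T ((l2_same X T).2 hT)
    · intro h X _ _ _ _ hX T hT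
      exact h X hX T ((l2_same X T).1 hT)

end Pool.Agent.Results.MP_d99131_an.GoodNoRatioLimit
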